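import Mathlib

namespace Pool.Agent.Results.MP_25490b_co.CubicPermutations

open Set

/-- Euclidean `d`-space. -/
abbrev E (d : ℕ) : Type := EuclideanSpace ℝ (Fin d)

/-- The order in which the oriented line `t ↦ x + t • v` meets the members of the family `F`:
`ord F x v i j` says that `i ≠ j` and that `F i` is met before `F j`. -/
def ord {ι : Type*} {d : ℕ} (F : ι → Set (E d)) (x v : E d) (i j : ι) : Prop :=
  i ≠ j ∧ ∃ a b : ℝ, a < b ∧ x + a • v ∈ F i ∧ x + b • v ∈ F j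

/-- The geometric permutations of `F`: the unordered pairs formed by the order in which an
oriented line transversal meets the members of `F`, and the reverse of this order. -/
def geomPerms {ι : Type*} {d : ℕ} (F : ι → Set (E d)) : Set (Sym2 (ι → ι → Prop)) :=
  {p | ∃ x v : E d, v ≠ 0 ∧ (∀ i, ∃ a : ℝ, x + a • v ∈ F i) ∧
    p = s(ord F x v, fun i j => ord F x v j i)}

/-- `g d n`: the largest number of geometric permutations of a family of `n` pairwise disjoint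
compact convex sets in `ℝ^d`. -/
noncomputable def g (d n : ℕ) : ℕ :=
  sSup {N | ∃ F : Fin n → Set (E d), (∀ i, IsCompact (F i) ∧ Convex ℝ (F i)) ∧
    (∀ i j, i ≠ j → Disjoint (F i) (F j)) ∧ N = (geomPerms F).ncard}

/-! ### The order is well defined -/

lemma mem_between {d : ℕ} {A : Set (E d)} (hA : Convex ℝ A) {x v : E d} {a b t : ℝ}
    (ha : x + a • v ∈ A) (hb : x + b • v ∈ A) (h1 : a ≤ t) (h2 : t ≤ b) :
    x + t • v ∈ A := by
  rcases eq_or_lt_of_le (h1.trans h2) with hab | hab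
  · have : t = a := le_antisymm (hab ▸ h2) h1
    rw [this]; exact ha
  · have h := hA ha hb (a := (b - t) / (b - a)) (b := (t - a) / (b - a))
      (div_nonneg (by linarith) (by linarith)) (div_nonneg (by linarith) (by linarith))
      (by field_simp; ring)
    have e : ((b - t) / (b - a)) • (x + a • v) + ((t - a) / (b - a)) • (x + b • v) =
        x + t • v := by
      have hne : b - a ≠ 0 := by linarith
      have e1 : (b - t) / (b - a) = 1 - (t - a) / (b - a) := by field_simp; ring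
      have e2 : t = a + (t - a) / (b - a) * (b - a) := by field_simp; ring
      obtain ⟨r, hr⟩ : ∃ r, r = (t - a) / (b - a) := ⟨_, rfl⟩
      rw [← hr] at e1 e2 ⊢
      rw [e1, e2]
      module
    rw [e] at h
    exact h

/-- For disjoint convex sets the order relation is asymmetric. -/
lemma ord_asymm {ι : Type*} {d : ℕ} {F : ι → Set (E d)} (hF : ∀ i, Convex ℝ (F i))
    (hdis : ∀ i j, i ≠ j → Disjoint (F i) (F j)) {x v : E d} {i j : ι}
    (h : ord F x v i j) : ¬ ord F x v j i := by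
  obtain ⟨hij, a, b, hab, ha, hb⟩ := h
  rintro ⟨-, b', a', hba, hb', ha'⟩
  have hd := Set.disjoint_left.mp (hdis i j hij)
  rcases le_or_gt b a' with h1 | h1
  · exact hd (mem_between (hF i) ha ha' hab.le h1) hb
  · exact hd ha' (mem_between (hF j) hb' hb hba.le h1.le)

/-- For disjoint convex sets all of which are met, the order relation is total. -/
lemma ord_total {ι : Type*} {d : ℕ} {F : ι → Set (E d)}
    (hdis : ∀ i j, i ≠ j → Disjoint (F i) (F j)) {x v : E d}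
    (hm : ∀ i, ∃ a : ℝ, x + a • v ∈ F i) {i j : ι} (hij : i ≠ j) :
    ord F x v i j ∨ ord F x v j i := by
  obtain ⟨a, ha⟩ := hm i
  obtain ⟨b, hb⟩ := hm j
  rcases lt_trichotomy a b with h | h | h
  · exact Or.inl ⟨hij, a, b, h, ha, hb⟩
  · subst h
    exact absurd hb (Set.disjoint_left.mp (hdis i j hij) ha)
  · exact Or.inr ⟨hij.symm, b, a, h, hb, ha⟩

/-- For disjoint convex sets the order relation is transitive. -/
lemma ord_trans {ι : Type*} {d : ℕ} {F : ι → Set (E d)} (hF : ∀ i, Convex ℝ (F i))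
    (hdis : ∀ i j, i ≠ j → Disjoint (F i) (F j)) {x v : E d} {i j k : ι}
    (h1 : ord F x v i j) (h2 : ord F x v j k) : ord F x v i k := by
  have hik : i ≠ k := by
    rintro rfl
    exact ord_asymm hF hdis h1 h2
  obtain ⟨hij, a, b, hab, ha, hb⟩ := h1
  obtain ⟨hjk, b', c, hbc, hb', hc⟩ := h2
  refine ⟨hik, a, c, ?_, ha, hc⟩
  by_contra h
  push Not at h
  have : c < b := lt_of_le_of_lt h hab
  exact Set.disjoint_left.mp (hdis j k hjk) (mem_between (hF j) hb' hb hbc.le this.le) hc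

/-! ### Lower bounds for `g` -/

lemma bddAbove_g (d n : ℕ) : BddAbove {N | ∃ F : Fin n → Set (E d),
    (∀ i, IsCompact (F i) ∧ Convex ℝ (F i)) ∧
    (∀ i j, i ≠ j → Disjoint (F i) (F j)) ∧ N = (geomPerms F).ncard} := by
  refine ⟨Nat.card (Sym2 (Fin n → Fin n → Prop)), ?_⟩
  rintro N ⟨F, -, -, rfl⟩
  rw [← Set.ncard_univ]
  exact Set.ncard_le_ncard (Set.subset_univ _) Set.finite_univ

lemma card_le_g {d n : ℕ} (F : Fin n → Set (E d))
    (hF : ∀ i, IsCompact (F i) ∧ Convex ℝ (F i))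
    (hdis : ∀ i j, i ≠ j → Disjoint (F i) (F j)) {κ : Type*} [Fintype κ]
    (x v : κ → E d) (hv : ∀ k, v k ≠ 0) (hit : ∀ k i, ∃ a : ℝ, x k + a • v k ∈ F i)
    (i0 i1 : Fin n) (h01 : ∀ k, ord F (x k) (v k) i0 i1)
    (hinj : ∀ k k', ord F (x k) (v k) = ord F (x k') (v k') → k = k') :
    Fintype.card κ ≤ g d n := by
  have h1 : Fintype.card κ ≤ (geomPerms F).ncard := by
    have hinj' : Function.Injective
        (fun k => s(ord F (x k) (v k), fun i j => ord F (x k) (v k) j i)) := by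
      intro k k' h
      simp only [Sym2.eq_iff] at h
      rcases h with ⟨h, -⟩ | ⟨h, -⟩
      · exact hinj k k' h
      · exfalso
        have h2 := h01 k
        rw [h] at h2
        exact ord_asymm (fun i => (hF i).2) hdis (h01 k') h2
    rw [← Nat.card_eq_fintype_card, ← Set.ncard_univ,
      ← Set.ncard_image_of_injective Set.univ hinj']
    apply Set.ncard_le_ncard _ (Set.toFinite _)
    rintro _ ⟨k, -, rfl⟩
    exact ⟨x k, v k, hv k, hit k, rfl⟩
  exact h1.trans (le_csSup (bddAbove_g d n) ⟨F, hF, hdis, rfl⟩)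

/-! ### Polyhedral pieces -/

/-- Affine function. -/
def af (a : Fin 4 → ℝ) (x : E 3) : ℝ := a 0 * x 0 + a 1 * x 1 + a 2 * x 2 + a 3

/-- The planar set `a = 0`, `b j ≤ 0` for all `j`. -/
def PS {κ : Type} (a : Fin 4 → ℝ) (b : κ → Fin 4 → ℝ) : Set (E 3) :=
  {x | af a x = 0 ∧ ∀ j, af (b j) x ≤ 0}

/-- Box. -/
def Box (M : ℝ) : Set (E 3) := {x | ∀ i, |x i| ≤ M}

lemma continuous_af (a : Fin 4 → ℝ) : Continuous (af a) := by
  unfold af; fun_prop

lemma isClosed_PS {κ : Type} (a : Fin 4 → ℝ) (b : κ → Fin 4 → ℝ) : IsClosed (PS a b) := by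
  have h1 : IsClosed {x : E 3 | af a x = 0} := isClosed_eq (continuous_af a) continuous_const
  have h2 : IsClosed {x : E 3 | ∀ j, af (b j) x ≤ 0} := by
    have : {x : E 3 | ∀ j, af (b j) x ≤ 0} = ⋂ j, {x : E 3 | af (b j) x ≤ 0} := by
      ext x; simp
    rw [this]
    exact isClosed_iInter fun j => isClosed_le (continuous_af (b j)) continuous_const
  exact h1.inter h2

lemma af_comb (a : Fin 4 → ℝ) (x y : E 3) (u v : ℝ) (h : u + v = 1) :
    af a (u • x + v • y) = u * af a x + v * af a y := by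
  simp only [af, PiLp.add_apply, PiLp.smul_apply, smul_eq_mul]
  have : v = 1 - u := by linarith
  subst this; ring

lemma convex_PS {κ : Type} (a : Fin 4 → ℝ) (b : κ → Fin 4 → ℝ) : Convex ℝ (PS a b) := by
  intro x hx y hy u v hu hv huv
  obtain ⟨hx1, hx2⟩ := hx
  obtain ⟨hy1, hy2⟩ := hy
  refine ⟨?_, fun j => ?_⟩
  · rw [af_comb a x y u v huv, hx1, hy1]; ring
  · rw [af_comb (b j) x y u v huv]
    have h1 := mul_nonpos_of_nonneg_of_nonpos hu (hx2 j)
    have h2 := mul_nonpos_of_nonneg_of_nonpos hv (hy2 j)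
    linarith

lemma isCompact_Box (M : ℝ) : IsCompact (Box M) := by
  have h : Box M = (EuclideanSpace.equiv (Fin 3) ℝ) ⁻¹' (Set.Icc (fun _ => -M) (fun _ => M)) := by
    ext x
    simp only [Box, Set.mem_ofPred_eq, Set.mem_preimage, Set.mem_Icc, Pi.le_def, abs_le]
    constructor
    · intro h; exact ⟨fun i => (h i).1, fun i => (h i).2⟩
    · intro h i; exact ⟨h.1 i, h.2 i⟩
  rw [h]
  exact (EuclideanSpace.equiv (Fin 3) ℝ).toHomeomorph.isCompact_preimage.mpr isCompact_Icc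

lemma convex_Box (M : ℝ) : Convex ℝ (Box M) := by
  intro x hx y hy u v hu hv huv i
  have h1 := abs_le.mp (hx i)
  have h2 := abs_le.mp (hy i)
  simp only [PiLp.add_apply, PiLp.smul_apply, smul_eq_mul]
  rw [abs_le]
  have hv' : v = 1 - u := by linarith
  constructor
  · nlinarith [mul_nonneg hu (by linarith [h1.1] : (0:ℝ) ≤ x i + M),
      mul_nonneg hv (by linarith [h2.1] : (0:ℝ) ≤ y i + M)]
  · nlinarith [mul_nonneg hu (by linarith [h1.2] : (0:ℝ) ≤ M - x i),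
      mul_nonneg hv (by linarith [h2.2] : (0:ℝ) ≤ M - y i)]

/-! ### Parameters -/

/-- Height bound. -/
def HH (m : ℕ) : ℝ := (m : ℝ) ^ 2 + 2

/-- Step of the third slope. -/
noncomputable def gg (m : ℕ) : ℝ := 1 / (1000 * ((m : ℝ) + 1) * (HH m) ^ 2)

/-- Depths of the long plates. -/
noncomputable def EE (m k : ℕ) : ℝ := HH m * (8 * (m : ℝ)) ^ (k + 1)

/-- Half-lengths of the long plates. -/
noncomputable def RR (m k : ℕ) : ℝ := 2 * (EE m k + HH m) / gg m

/-- Bound for all half-lengths. -/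
noncomputable def RM (m : ℕ) : ℝ := HH m + ∑ k : Fin m, RR m k

/-- Index type. -/
abbrev Idx (m r : ℕ) : Type := Fin m ⊕ Fin m ⊕ Fin m ⊕ Fin r

/-- The family: lower pieces, upper pieces, long plates, walls. -/
noncomputable def G (m r : ℕ) : Idx m r → Set (E 3)
  | Sum.inl j => PS ![1, 0, 0, -(((j : ℕ) : ℝ) + 1)]
      ![![0, 1, -(((j : ℕ) : ℝ) + 1), 0], ![0, 0, -1, -1], ![0, 0, 1, -HH m]]
  | Sum.inr (Sum.inl i) => PS ![1, 0, -1, (m : ℝ) * ((i : ℕ) : ℝ)]
      (Sum.elim (fun j : Fin m => ![0, -1, (m : ℝ) * ((i : ℕ) : ℝ) + 2 * (((j : ℕ) : ℝ) + 1),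
        -((m : ℝ) * ((i : ℕ) : ℝ) + (((j : ℕ) : ℝ) + 1)) ^ 2 + 1 / 8])
        ![![0, 0, -1, -1], ![0, 0, 1, -HH m]])
  | Sum.inr (Sum.inr (Sum.inl k)) => PS ![-((((k : ℕ) : ℝ) + 1) * gg m), 0, 1, EE m k]
      ![![1, 0, 0, -RR m k], ![-1, 0, 0, -RR m k]]
  | Sum.inr (Sum.inr (Sum.inr q)) => PS (κ := Fin 0) ![1, 0, 0, -(RM m + 1 + ((q : ℕ) : ℝ))]
      ![]

lemma mem_GL (m r : ℕ) (j : Fin m) (x : E 3) :
    x ∈ G m r (Sum.inl j) ↔ x 0 = ((j : ℕ) : ℝ) + 1 ∧ x 1 ≤ (((j : ℕ) : ℝ) + 1) * x 2 ∧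
      -1 ≤ x 2 ∧ x 2 ≤ HH m := by
  simp only [G, PS, af, Set.mem_ofPred_eq, Fin.forall_fin_succ, Matrix.cons_val]
  constructor
  · rintro ⟨h1, h2, h3, h4, -⟩
    simp at h2 h3 h4
    exact ⟨by linarith, by linarith, by linarith, by linarith⟩
  · rintro ⟨h1, h2, h3, h4⟩
    refine ⟨by linarith, ?_, ?_, ?_, fun i => i.elim0⟩
    · simp; linarith
    · simp; linarith
    · simp; linarith

lemma mem_GU (m r : ℕ) (i : Fin m) (x : E 3) :
    x ∈ G m r (Sum.inr (Sum.inl i)) ↔ x 0 = x 2 - (m : ℝ) * ((i : ℕ) : ℝ) ∧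
      (∀ j : Fin m, ((m : ℝ) * ((i : ℕ) : ℝ) + 2 * (((j : ℕ) : ℝ) + 1)) * x 2 -
        ((m : ℝ) * ((i : ℕ) : ℝ) + (((j : ℕ) : ℝ) + 1)) ^ 2 + 1 / 8 ≤ x 1) ∧
      -1 ≤ x 2 ∧ x 2 ≤ HH m := by
  simp only [G, PS, af, Set.mem_ofPred_eq, Sum.forall, Sum.elim_inl, Sum.elim_inr,
    Fin.forall_fin_succ (n := 1), Fin.forall_fin_succ (n := 0), Matrix.cons_val]
  constructor
  · rintro ⟨h1, h2, h3, h4, -⟩
    simp at h3 h4
    refine ⟨by linarith, fun j => ?_, by linarith, by linarith⟩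
    have := h2 j
    linarith
  · rintro ⟨h1, h2, h3, h4⟩
    refine ⟨by linarith, fun j => ?_, ?_, ?_, fun i => i.elim0⟩
    · have := h2 j
      linarith
    · simp; linarith
    · simp; linarith

lemma mem_GZ (m r : ℕ) (k : Fin m) (x : E 3) :
    x ∈ G m r (Sum.inr (Sum.inr (Sum.inl k))) ↔
      x 2 = -EE m k + (((k : ℕ) : ℝ) + 1) * gg m * x 0 ∧ |x 0| ≤ RR m k := by
  simp only [G, PS, af, Set.mem_ofPred_eq, Fin.forall_fin_succ, Matrix.cons_val]
  rw [abs_le]
  constructor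
  · rintro ⟨h1, h2, h3, -⟩
    simp at h2 h3
    exact ⟨by linarith, by linarith, by linarith⟩
  · rintro ⟨h1, h2, h3⟩
    refine ⟨by linarith, ?_, ?_, fun i => i.elim0⟩
    · simp; linarith
    · simp; linarith

lemma mem_GW (m r : ℕ) (q : Fin r) (x : E 3) :
    x ∈ G m r (Sum.inr (Sum.inr (Sum.inr q))) ↔ x 0 = RM m + 1 + ((q : ℕ) : ℝ) := by
  simp only [G, PS, af, Set.mem_ofPred_eq, Matrix.cons_val]
  constructor
  · rintro ⟨h1, -⟩; linarith
  · intro h1; exact ⟨by linarith, fun i => i.elim0⟩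

lemma isClosed_G (m r : ℕ) (e : Idx m r) : IsClosed (G m r e) := by
  rcases e with j | i | k | q <;> exact isClosed_PS _ _

lemma convex_G (m r : ℕ) (e : Idx m r) : Convex ℝ (G m r e) := by
  rcases e with j | i | k | q <;> exact convex_PS _ _

/-! ### Facts on the parameters -/

lemma HH_pos (m : ℕ) : 0 < HH m := by unfold HH; positivity

lemma HH_ge (m : ℕ) : 2 ≤ HH m := by unfold HH; nlinarith [sq_nonneg (m:ℝ)]

lemma gg_pos (m : ℕ) : 0 < gg m := by
  have := HH_pos m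
  unfold gg; positivity

lemma slope_le (m : ℕ) {s : ℝ} (hs : s ≤ ((m : ℝ) + 1) * gg m) :
    s ≤ 1 / (1000 * (HH m) ^ 2) := by
  have h := HH_pos m
  have hm : (0:ℝ) < (m : ℝ) + 1 := by positivity
  refine hs.trans (le_of_eq ?_)
  unfold gg
  field_simp

lemma EE_ge {m : ℕ} (hm : 1 ≤ m) (k : ℕ) : 8 * HH m ≤ EE m k := by
  have h := HH_pos m
  have hm1 : (1:ℝ) ≤ m := by exact_mod_cast hm
  have h8 : (1:ℝ) ≤ 8 * (m:ℝ) := by linarith
  have h2 : 8 * (m:ℝ) ≤ (8 * (m : ℝ)) ^ (k + 1) := by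
    calc 8 * (m:ℝ) = (8 * (m:ℝ)) ^ 1 := by ring
      _ ≤ (8 * (m : ℝ)) ^ (k + 1) := pow_le_pow_right₀ h8 (by omega)
  unfold EE
  nlinarith

lemma EE_gap {m : ℕ} (hm : 1 ≤ m) {k l : ℕ} (hkl : k < l) :
    8 * (m:ℝ) * EE m k ≤ EE m l := by
  have h := HH_pos m
  have hm1 : (1:ℝ) ≤ m := by exact_mod_cast hm
  have h8 : (1:ℝ) ≤ 8 * (m:ℝ) := by linarith
  have h2 : (8 * (m : ℝ)) ^ (k + 2) ≤ (8 * (m : ℝ)) ^ (l + 1) :=
    pow_le_pow_right₀ h8 (by omega)
  unfold EE
  calc 8 * (m:ℝ) * (HH m * (8 * (m : ℝ)) ^ (k + 1)) = HH m * (8 * (m : ℝ)) ^ (k + 2) := by ring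
    _ ≤ HH m * (8 * (m : ℝ)) ^ (l + 1) := mul_le_mul_of_nonneg_left h2 h.le

lemma RR_pos {m : ℕ} (hm : 1 ≤ m) (k : ℕ) : 0 < RR m k := by
  have h1 := EE_ge hm k
  have h2 := HH_pos m
  have h3 := gg_pos m
  unfold RR
  apply div_pos _ h3
  linarith

lemma RR_le_RM {m : ℕ} (hm : 1 ≤ m) (k : Fin m) : RR m k ≤ RM m := by
  have h2 := HH_pos m
  unfold RM
  have := Finset.single_le_sum (f := fun k : Fin m => RR m k)
    (fun i _ => (RR_pos hm i).le) (Finset.mem_univ k)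
  linarith

lemma HH_le_RM {m : ℕ} (hm : 1 ≤ m) : HH m ≤ RM m := by
  unfold RM
  have : 0 ≤ ∑ k : Fin m, RR m k := Finset.sum_nonneg fun i _ => (RR_pos hm i).le
  linarith

lemma idx_le {m : ℕ} (i : Fin m) : ((i : ℕ) : ℝ) + 1 ≤ m := by exact_mod_cast i.2

lemma m_le_HH (m : ℕ) : (m : ℝ) + 1 ≤ HH m := by
  unfold HH; nlinarith [sq_nonneg ((m:ℝ) - 1)]

/-- the long plates are below the other pieces in the middle region -/
lemma plate_low {m : ℕ} (hm : 1 ≤ m) (k : Fin m) {X : ℝ} (hX : X ≤ HH m) :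
    -EE m k + (((k : ℕ) : ℝ) + 1) * gg m * X < -1 := by
  have h1 := EE_ge hm k
  have h2 := HH_ge m
  have h3 := gg_pos m
  have hk := idx_le k
  have hk0 : (0:ℝ) ≤ ((k : ℕ) : ℝ) := by positivity
  have hs : (((k : ℕ) : ℝ) + 1) * gg m ≤ 1 / (1000 * (HH m) ^ 2) := by
    apply slope_le
    apply mul_le_mul_of_nonneg_right _ h3.le
    linarith
  have hs1 : (((k : ℕ) : ℝ) + 1) * gg m ≤ 1 := by
    refine hs.trans ?_
    rw [div_le_one (by positivity)]
    nlinarith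
  have hs0 : 0 ≤ (((k : ℕ) : ℝ) + 1) * gg m := by positivity
  have : (((k : ℕ) : ℝ) + 1) * gg m * X ≤ HH m := by
    calc (((k : ℕ) : ℝ) + 1) * gg m * X ≤ (((k : ℕ) : ℝ) + 1) * gg m * HH m :=
          mul_le_mul_of_nonneg_left hX hs0
      _ ≤ 1 * HH m := mul_le_mul_of_nonneg_right hs1 (by linarith)
      _ = HH m := one_mul _
  linarith

lemma plates_disjoint {m r : ℕ} (hm : 1 ≤ m) {k l : Fin m} (hkl : (k : ℕ) < l) (x : E 3)
    (h1 : x ∈ G m r (Sum.inr (Sum.inr (Sum.inl k))))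
    (h2 : x ∈ G m r (Sum.inr (Sum.inr (Sum.inl l)))) : False := by
  rw [mem_GZ] at h1 h2
  have hg := gg_pos m
  have hH := HH_pos m
  have hE := EE_ge hm (k : ℕ)
  have hgap := EE_gap hm hkl
  have hm1 : (1:ℝ) ≤ m := by exact_mod_cast hm
  have hx := (abs_le.mp h1.2).2
  have e1 : EE m l - EE m k = (((l : ℕ) : ℝ) - ((k : ℕ) : ℝ)) * (gg m * x 0) := by
    linear_combination h2.1 - h1.1
  have hlk : (0:ℝ) < ((l : ℕ) : ℝ) - ((k : ℕ) : ℝ) := by
    have : ((k : ℕ) : ℝ) < ((l : ℕ) : ℝ) := by exact_mod_cast hkl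
    linarith
  have hlm : ((l : ℕ) : ℝ) - ((k : ℕ) : ℝ) ≤ m := by
    have h3 := idx_le l
    have h4 : (0:ℝ) ≤ ((k : ℕ) : ℝ) := by positivity
    linarith
  have e2 : gg m * x 0 ≤ 2 * (EE m k + HH m) := by
    calc gg m * x 0 ≤ gg m * RR m k := mul_le_mul_of_nonneg_left hx hg.le
      _ = 2 * (EE m k + HH m) := by unfold RR; field_simp
  have e3 : (((l : ℕ) : ℝ) - ((k : ℕ) : ℝ)) * (gg m * x 0) ≤
      m * (2 * (EE m k + HH m)) := by
    have h5 : 0 ≤ 2 * (EE m k + HH m) := by linarith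
    calc (((l : ℕ) : ℝ) - ((k : ℕ) : ℝ)) * (gg m * x 0)
        ≤ (((l : ℕ) : ℝ) - ((k : ℕ) : ℝ)) * (2 * (EE m k + HH m)) :=
          mul_le_mul_of_nonneg_left e2 hlk.le
      _ ≤ m * (2 * (EE m k + HH m)) := mul_le_mul_of_nonneg_right hlm h5
  have hEpos : 0 < EE m k := by linarith
  have h6 : (m:ℝ) * HH m ≤ m * EE m k / 8 := by nlinarith
  have h7 : EE m k ≤ m * EE m k := by nlinarith
  have h8 : 0 < (m:ℝ) * EE m k := by positivity
  linarith

lemma disjoint_G {m r : ℕ} (hm : 1 ≤ m) (e f : Idx m r) (hne : e ≠ f) :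
    Disjoint (G m r e) (G m r f) := by
  have hH := HH_ge m
  have LU : ∀ j i (x : E 3), x ∈ G m r (Sum.inl j) → x ∈ G m r (Sum.inr (Sum.inl i)) →
      False := by
    intro j i x h1 h2
    rw [mem_GL] at h1
    rw [mem_GU] at h2
    have h3 := h2.2.1 j
    have h4 := h1.2.1
    have h5 : x 2 = ((j : ℕ) : ℝ) + 1 + (m : ℝ) * ((i : ℕ) : ℝ) := by linarith [h1.1, h2.1]
    rw [h5] at h3 h4
    nlinarith
  have LZ : ∀ j k (x : E 3), x ∈ G m r (Sum.inl j) →
      x ∈ G m r (Sum.inr (Sum.inr (Sum.inl k))) → False := by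
    intro j k x h1 h2
    rw [mem_GL] at h1
    rw [mem_GZ] at h2
    have h3 := idx_le j
    have h4 := m_le_HH m
    have h5 : x 0 ≤ HH m := by linarith [h1.1]
    have := plate_low hm k h5
    linarith [h1.2.2.1, h2.1]
  have LW : ∀ j q (x : E 3), x ∈ G m r (Sum.inl j) →
      x ∈ G m r (Sum.inr (Sum.inr (Sum.inr q))) → False := by
    intro j q x h1 h2
    rw [mem_GL] at h1
    rw [mem_GW] at h2
    have h3 := idx_le j
    have h4 := m_le_HH m
    have h5 := HH_le_RM hm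
    have h6 : (0:ℝ) ≤ ((q : ℕ) : ℝ) := by positivity
    linarith [h1.1]
  have UZ : ∀ i k (x : E 3), x ∈ G m r (Sum.inr (Sum.inl i)) →
      x ∈ G m r (Sum.inr (Sum.inr (Sum.inl k))) → False := by
    intro i k x h1 h2
    rw [mem_GU] at h1
    rw [mem_GZ] at h2
    have h3 : (0:ℝ) ≤ (m : ℝ) * ((i : ℕ) : ℝ) := by positivity
    have h5 : x 0 ≤ HH m := by linarith [h1.1, h1.2.2.2]
    have := plate_low hm k h5
    linarith [h1.2.2.1, h2.1]
  have UW : ∀ i q (x : E 3), x ∈ G m r (Sum.inr (Sum.inl i)) →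
      x ∈ G m r (Sum.inr (Sum.inr (Sum.inr q))) → False := by
    intro i q x h1 h2
    rw [mem_GU] at h1
    rw [mem_GW] at h2
    have h3 : (0:ℝ) ≤ (m : ℝ) * ((i : ℕ) : ℝ) := by positivity
    have h5 := HH_le_RM hm
    have h6 : (0:ℝ) ≤ ((q : ℕ) : ℝ) := by positivity
    linarith [h1.1, h1.2.2.2]
  have ZW : ∀ k q (x : E 3), x ∈ G m r (Sum.inr (Sum.inr (Sum.inl k))) →
      x ∈ G m r (Sum.inr (Sum.inr (Sum.inr q))) → False := by
    intro k q x h1 h2
    rw [mem_GZ] at h1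
    rw [mem_GW] at h2
    have h5 := RR_le_RM hm k
    have h6 : (0:ℝ) ≤ ((q : ℕ) : ℝ) := by positivity
    linarith [(abs_le.mp h1.2).2]
  rw [Set.disjoint_left]
  intro x hx hy
  rcases e with j | i | k | q <;> rcases f with j' | i' | k' | q'
  · rw [mem_GL] at hx hy
    have h1 : ((j : ℕ) : ℝ) = ((j' : ℕ) : ℝ) := by linarith [hx.1, hy.1]
    have h2 : (j : ℕ) = j' := by exact_mod_cast h1
    exact hne (congrArg Sum.inl (Fin.ext h2))
  · exact LU _ _ _ hx hy
  · exact LZ _ _ _ hx hy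
  · exact LW _ _ _ hx hy
  · exact LU _ _ _ hy hx
  · rw [mem_GU] at hx hy
    have hm0 : (m : ℝ) ≠ 0 := by
      have : (1:ℝ) ≤ m := by exact_mod_cast hm
      linarith
    have h1 : (m:ℝ) * ((i : ℕ) : ℝ) = (m:ℝ) * ((i' : ℕ) : ℝ) := by linarith [hx.1, hy.1]
    have h2 : ((i : ℕ) : ℝ) = ((i' : ℕ) : ℝ) := mul_left_cancel₀ hm0 h1
    have h3 : (i : ℕ) = i' := by exact_mod_cast h2
    exact hne (by rw [Fin.ext h3])
  · exact UZ _ _ _ hx hy
  · exact UW _ _ _ hx hy
  · exact LZ _ _ _ hy hx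
  · exact UZ _ _ _ hy hx
  · rcases lt_trichotomy (k : ℕ) k' with h | h | h
    · exact plates_disjoint hm h x hx hy
    · exact hne (by rw [Fin.ext h])
    · exact plates_disjoint hm h x hy hx
  · exact ZW _ _ _ hx hy
  · exact LW _ _ _ hy hx
  · exact UW _ _ _ hy hx
  · exact ZW _ _ _ hy hx
  · rw [mem_GW] at hx hy
    have h1 : ((q : ℕ) : ℝ) = ((q' : ℕ) : ℝ) := by linarith
    have h2 : (q : ℕ) = q' := by exact_mod_cast h1
    exact hne (by rw [Fin.ext h2])

/-! ### The lines -/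

/-- base point of the line with time `c` -/
noncomputable def bp (c : ℝ) : E 3 := !₂[0, 0, c]

/-- direction of the line with time `c` and third slope `s` -/
noncomputable def dv (c s : ℝ) : E 3 := !₂[1, c, s]

lemma dv_ne (c s : ℝ) : dv c s ≠ 0 := by
  intro h
  have := congrArg (fun x : E 3 => x 0) h
  simp [dv] at this

lemma pt0 (c s a : ℝ) : (bp c + a • dv c s) 0 = a := by simp [bp, dv]

lemma pt1 (c s a : ℝ) : (bp c + a • dv c s) 1 = c * a := by simp [bp, dv]; ring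

lemma pt2 (c s a : ℝ) : (bp c + a • dv c s) 2 = c + s * a := by simp [bp, dv]; ring

/-- times -/
noncomputable def tc (k : ℕ) : ℝ := (k : ℝ) + 1 / 2

/-- slopes -/
noncomputable def sl (m l : ℕ) : ℝ := ((l : ℝ) + 1 / 2) * gg m

/-- parameter at which the line meets the given piece -/
noncomputable def al (m r : ℕ) (c s : ℝ) : Idx m r → ℝ
  | Sum.inl j => ((j : ℕ) : ℝ) + 1
  | Sum.inr (Sum.inl i) => (c - (m : ℝ) * ((i : ℕ) : ℝ)) / (1 - s)
  | Sum.inr (Sum.inr (Sum.inl k)) => -(EE m k + c) / (s - (((k : ℕ) : ℝ) + 1) * gg m)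
  | Sum.inr (Sum.inr (Sum.inr q)) => RM m + 1 + ((q : ℕ) : ℝ)

lemma sl_pos (m l : ℕ) : 0 < sl m l := by
  have := gg_pos m
  unfold sl; positivity

lemma sl_le {m l : ℕ} (hl : l ≤ m) : sl m l ≤ 1 / (1000 * (HH m) ^ 2) := by
  have h := gg_pos m
  apply slope_le
  unfold sl
  apply mul_le_mul_of_nonneg_right _ h.le
  have : (l : ℝ) ≤ m := by exact_mod_cast hl
  linarith

lemma sl_le_small {m l : ℕ} (hl : l ≤ m) : sl m l * (HH m) ^ 2 ≤ 1 / 1000 := by
  have h := HH_pos m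
  calc sl m l * (HH m) ^ 2 ≤ 1 / (1000 * (HH m) ^ 2) * (HH m) ^ 2 :=
        mul_le_mul_of_nonneg_right (sl_le hl) (by positivity)
    _ = 1 / 1000 := by field_simp

lemma sl_le_one {m l : ℕ} (hl : l ≤ m) : sl m l ≤ 1 / 4000 := by
  have h1 := sl_le_small hl
  have h2 := HH_ge m
  have h3 := sl_pos m l
  have h4 : (4:ℝ) ≤ (HH m) ^ 2 := by nlinarith
  nlinarith

lemma half_le_abs (z : ℤ) : (1 / 2 : ℝ) ≤ |(z : ℝ) + 1 / 2| := by
  rcases le_or_gt 0 z with h | h
  · have : (0 : ℝ) ≤ z := by exact_mod_cast h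
    rw [abs_of_pos (by linarith)]; linarith
  · have : (z : ℝ) ≤ -1 := by
      have : z ≤ -1 := by omega
      exact_mod_cast this
    rw [abs_of_neg (by linarith)]; linarith

/-- the line meets every piece -/
lemma hits {m r k l : ℕ} (hm : 1 ≤ m) (hk : k ≤ m ^ 2) (hl : l ≤ m) (e : Idx m r) :
    bp (tc k) + al m r (tc k) (sl m l) e • dv (tc k) (sl m l) ∈ G m r e := by
  obtain ⟨s, hs⟩ : ∃ s, s = sl m l := ⟨_, rfl⟩
  obtain ⟨c, hc⟩ : ∃ c, c = tc k := ⟨_, rfl⟩
  have hs0 : 0 < s := hs ▸ sl_pos m l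
  have hs1 : s ≤ 1 / 4000 := hs ▸ sl_le_one hl
  have hs2 : s * (HH m) ^ 2 ≤ 1 / 1000 := hs ▸ sl_le_small hl
  have hH := HH_ge m
  have hm1 : (1:ℝ) ≤ m := by exact_mod_cast hm
  have hc0 : 1 / 2 ≤ c := by
    rw [hc]; unfold tc
    have : (0:ℝ) ≤ (k:ℝ) := by positivity
    linarith
  have hc1 : c ≤ HH m - 3 / 2 := by
    rw [hc]; unfold tc HH
    have : (k:ℝ) ≤ (m:ℝ) ^ 2 := by exact_mod_cast hk
    linarith
  rw [← hs, ← hc]
  rcases e with j | i | k' | q
  · rw [mem_GL, pt0, pt1, pt2]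
    simp only [al]
    have h1 := idx_le j
    have h2 := m_le_HH m
    have h3 : (0:ℝ) < ((j : ℕ) : ℝ) + 1 := by positivity
    have h4 : s * (((j : ℕ) : ℝ) + 1) ≤ 1 / 1000 := by
      have : s * (((j : ℕ) : ℝ) + 1) ≤ s * (HH m) ^ 2 := by
        apply mul_le_mul_of_nonneg_left _ hs0.le
        nlinarith
      linarith
    have h5 : 0 < s * (((j : ℕ) : ℝ) + 1) := by positivity
    refine ⟨trivial, ?_, by linarith, by linarith⟩
    nlinarith
  · rw [mem_GU, pt0, pt1, pt2]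
    simp only [al]
    obtain ⟨t, ht⟩ : ∃ t, t = (m : ℝ) * ((i : ℕ) : ℝ) := ⟨_, rfl⟩
    obtain ⟨X, hX⟩ : ∃ X, X = (c - t) / (1 - s) := ⟨_, rfl⟩
    rw [← ht, ← hX]
    have h1s : 0 < 1 - s := by linarith
    have hX1 : X * (1 - s) = c - t := by rw [hX, div_mul_cancel₀ _ h1s.ne']
    have ht0 : 0 ≤ t := by rw [ht]; positivity
    have ht1 : t ≤ HH m - 2 := by
      rw [ht]; unfold HH
      have := idx_le i
      nlinarith
    have hXabs : |X| ≤ HH m := by
      have h2 : |X| * (1 - s) ≤ HH m - 3 / 2 := by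
        rw [← abs_of_pos h1s, ← abs_mul, hX1, abs_le]
        constructor <;> linarith
      have h3 : |X| * (3999 / 4000) ≤ |X| * (1 - s) :=
        mul_le_mul_of_nonneg_left (by linarith) (abs_nonneg _)
      have h4 : HH m - 3 / 2 ≤ HH m * (3999 / 4000) ∨ HH m * (3999 / 4000) < HH m - 3 / 2 :=
        le_or_gt _ _
      rcases h4 with h4 | h4
      · linarith
      · -- use the sharper bound
        have h5 : |X| * s ≤ |X| * (1 / (1000 * (HH m) ^ 2)) := by
          apply mul_le_mul_of_nonneg_left _ (abs_nonneg _)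
          rw [hs]; exact sl_le hl
        by_contra hcon
        push Not at hcon
        have h6 : s * HH m ≤ 1 / 1000 := by
          have : s * HH m ≤ s * (HH m) ^ 2 := by
            apply mul_le_mul_of_nonneg_left _ hs0.le
            nlinarith
          linarith
        have h7 : HH m * (1 - s) < |X| * (1 - s) := mul_lt_mul_of_pos_right hcon h1s
        nlinarith
    have hXsq : X ^ 2 ≤ (HH m) ^ 2 := by
      rw [← sq_abs X]
      exact pow_le_pow_left₀ (abs_nonneg _) hXabs 2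
    have hsX2 : s * X ^ 2 ≤ 1 / 1000 := by
      refine le_trans (mul_le_mul_of_nonneg_left hXsq hs0.le) hs2
    have hsX : |s * X| ≤ 1 / 1000 := by
      rw [abs_mul, abs_of_pos hs0]
      have : s * |X| ≤ s * (HH m) ^ 2 := by
        apply mul_le_mul_of_nonneg_left _ hs0.le
        nlinarith [abs_nonneg X]
      linarith
    obtain ⟨hsXl, hsXu⟩ := abs_le.mp hsX
    refine ⟨by linarith, ?_, by linarith, by linarith⟩
    intro j
    obtain ⟨w, hw⟩ : ∃ w, w = ((j : ℕ) : ℝ) + 1 := ⟨_, rfl⟩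
    rw [← hw]
    have hh : c + s * X = X + t := by linarith
    have hcX : c * X = X ^ 2 - s * X ^ 2 + t * X := by
      have : c = X * (1 - s) + t := by linarith
      rw [this]; ring
    rw [hh, hcX]
    have hhalf : 1 / 2 ≤ |c - t - w| := by
      have e1 : c - t - w = (((k : ℤ) - (m : ℤ) * ((i : ℕ) : ℤ) - (((j : ℕ) : ℤ) + 1) : ℤ) : ℝ)
          + 1 / 2 := by
        rw [hc, ht, hw]; unfold tc; push_cast; ring
      rw [e1]
      exact half_le_abs _
    have hXw : 499 / 1000 ≤ |X - w| := by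
      have e1 : c - t - w = (X - w) + -(s * X) := by linarith
      rw [e1] at hhalf
      have := abs_add_le (X - w) (-(s * X))
      rw [abs_neg] at this
      linarith
    have hsq : (499 / 1000 : ℝ) ^ 2 ≤ (X - w) ^ 2 := by
      rw [← sq_abs (X - w)]
      exact pow_le_pow_left₀ (by norm_num) hXw 2
    nlinarith
  · rw [mem_GZ, pt0, pt2]
    simp only [al]
    have hg := gg_pos m
    have hE := EE_ge hm (k' : ℕ)
    obtain ⟨D, hD⟩ : ∃ D, D = s - (((k' : ℕ) : ℝ) + 1) * gg m := ⟨_, rfl⟩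
    rw [← hD]
    have hDabs : gg m / 2 ≤ |D| := by
      have e1 : D = ((((l : ℤ) - (((k' : ℕ) : ℤ) + 1) : ℤ) : ℝ) + 1 / 2) * gg m := by
        rw [hD, hs]; unfold sl; push_cast; ring
      rw [e1, abs_mul, abs_of_pos hg]
      have := half_le_abs ((l : ℤ) - (((k' : ℕ) : ℤ) + 1))
      nlinarith
    have hDne : D ≠ 0 := by
      intro h
      rw [h, abs_zero] at hDabs
      linarith
    constructor
    · have : s = D + (((k' : ℕ) : ℝ) + 1) * gg m := by rw [hD]; ring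
      rw [this]
      field_simp
      ring
    · rw [abs_div, abs_neg, abs_of_pos (by linarith : 0 < EE m k' + c)]
      unfold RR
      rw [div_le_div_iff₀ (abs_pos.mpr hDne) hg]
      have h6 : EE m k' + c ≤ EE m k' + HH m := by linarith
      have h7 : 0 < EE m k' + c := by linarith
      nlinarith [mul_le_mul h6 hDabs (by positivity) (by linarith)]
  · rw [mem_GW, pt0]
    simp only [al]

/-- the meeting parameter is unique -/
lemma hits_unique {m r k l : ℕ} (hl : l ≤ m) (e : Idx m r) {a : ℝ}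
    (ha : bp (tc k) + a • dv (tc k) (sl m l) ∈ G m r e) :
    a = al m r (tc k) (sl m l) e := by
  have hs1 := sl_le_one hl
  rcases e with j | i | k' | q
  · rw [mem_GL, pt0] at ha
    simp only [al]; exact ha.1
  · rw [mem_GU, pt0, pt2] at ha
    simp only [al]
    rw [eq_div_iff (by linarith)]
    linarith [ha.1]
  · rw [mem_GZ, pt0, pt2] at ha
    simp only [al]
    have hg := gg_pos m
    have hne : sl m l - (((k' : ℕ) : ℝ) + 1) * gg m ≠ 0 := by
      have e1 : sl m l - (((k' : ℕ) : ℝ) + 1) * gg m =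
          ((((l : ℤ) - (((k' : ℕ) : ℤ) + 1) : ℤ) : ℝ) + 1 / 2) * gg m := by
        unfold sl; push_cast; ring
      rw [e1]
      have := half_le_abs ((l : ℤ) - (((k' : ℕ) : ℤ) + 1))
      apply mul_ne_zero _ hg.ne'
      intro h
      rw [h, abs_zero] at this
      norm_num at this
    rw [eq_div_iff hne]
    linear_combination ha.1
  · rw [mem_GW, pt0] at ha
    simp only [al]; exact ha

/-! ### Counting -/

lemma card_Idx (m r : ℕ) : Fintype.card (Idx m r) = 3 * m + r := by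
  simp [Idx]; ring

theorem main_count {m r n : ℕ} (hm : 2 ≤ m) (hn : n = 3 * m + r) :
    (m ^ 2 + 1) * (m + 1) ≤ g 3 n := by
  classical
  have hm1 : 1 ≤ m := by omega
  have hcard : Fintype.card (Fin n) = Fintype.card (Idx m r) := by
    rw [card_Idx, Fintype.card_fin, hn]
  obtain ⟨eqv⟩ : Nonempty (Fin n ≃ Idx m r) := ⟨Fintype.equivOfCardEq hcard⟩
  -- a common box
  obtain ⟨M, hM⟩ := (Set.finite_range
    (fun z : (Fin (m ^ 2 + 1) × Fin (m + 1)) × Idx m r × Fin 3 =>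
      |(bp (tc z.1.1) + al m r (tc z.1.1) (sl m z.1.2) z.2.1 •
        dv (tc z.1.1) (sl m z.1.2)) z.2.2|)).bddAbove
  have hbox : ∀ (k l : ℕ), k ≤ m ^ 2 → l ≤ m → ∀ e : Idx m r,
      bp (tc k) + al m r (tc k) (sl m l) e • dv (tc k) (sl m l) ∈ Box M := by
    intro k l hk hl e i
    exact hM ⟨((⟨k, Nat.lt_succ_of_le hk⟩, ⟨l, Nat.lt_succ_of_le hl⟩), e, i), rfl⟩
  -- the family
  obtain ⟨F, hFdef⟩ : ∃ F : Fin n → Set (E 3), ∀ i, F i = G m r (eqv i) ∩ Box M :=
    ⟨_, fun _ => rfl⟩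
  have hF : ∀ i, IsCompact (F i) ∧ Convex ℝ (F i) := by
    intro i
    rw [hFdef]
    exact ⟨(isCompact_Box M).inter_left (isClosed_G m r _),
      (convex_G m r _).inter (convex_Box M)⟩
  have hdis : ∀ i j, i ≠ j → Disjoint (F i) (F j) := by
    intro i j hij
    rw [hFdef, hFdef]
    exact (disjoint_G hm1 _ _ (fun h => hij (eqv.injective h))).mono
      Set.inter_subset_left Set.inter_subset_left
  have hmem : ∀ (k l : ℕ), k ≤ m ^ 2 → l ≤ m → ∀ i : Fin n,
      bp (tc k) + al m r (tc k) (sl m l) (eqv i) • dv (tc k) (sl m l) ∈ F i := by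
    intro k l hk hl i
    rw [hFdef]
    exact ⟨hits hm1 hk hl _, hbox k l hk hl _⟩
  have hord : ∀ (k l : ℕ), k ≤ m ^ 2 → l ≤ m → ∀ i j : Fin n,
      (ord F (bp (tc k)) (dv (tc k) (sl m l)) i j ↔
        i ≠ j ∧ al m r (tc k) (sl m l) (eqv i) < al m r (tc k) (sl m l) (eqv j)) := by
    intro k l hk hl i j
    constructor
    · rintro ⟨hij, a, b, hab, ha, hb⟩
      rw [hFdef] at ha hb
      rw [← hits_unique hl _ ha.1, ← hits_unique hl _ hb.1]
      exact ⟨hij, hab⟩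
    · rintro ⟨hij, h⟩
      exact ⟨hij, _, _, h, hmem k l hk hl i, hmem k l hk hl j⟩
  have hm2 : (2:ℝ) ≤ m := by exact_mod_cast hm
  have hH := HH_ge m
  have hg := gg_pos m
  -- small slopes
  have hsmall : ∀ l : ℕ, l ≤ m → sl m l * m ≤ 1 / 1000 := by
    intro l hl
    have h1 := sl_le_small hl
    have h2 := sl_pos m l
    have h3 : (m:ℝ) ≤ (HH m) ^ 2 := by
      have := m_le_HH m
      nlinarith
    have := mul_le_mul_of_nonneg_left h3 h2.le
    linarith
  have key1 : ∀ (k k' l l' : ℕ), k < k' → k' ≤ m ^ 2 → l ≤ m → l' ≤ m →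
      ord F (bp (tc k)) (dv (tc k) (sl m l)) = ord F (bp (tc k')) (dv (tc k') (sl m l')) →
      False := by
    intro k k' l l' hkk hk' hl hl' heq
    have hkm : k < m * m := by nlinarith
    have hi : k / m < m := Nat.div_lt_of_lt_mul hkm
    have hj : k % m < m := Nat.mod_lt _ (by omega)
    have hdiv : m * (k / m) + k % m = k := Nat.div_add_mod k m
    have hdivR : (m:ℝ) * ((k / m : ℕ) : ℝ) + ((k % m : ℕ) : ℝ) = k := by exact_mod_cast hdiv
    obtain ⟨U, hU⟩ : ∃ U : Fin n, eqv U = Sum.inr (Sum.inl ⟨k / m, hi⟩) :=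
      ⟨eqv.symm _, eqv.apply_symm_apply _⟩
    obtain ⟨L, hL⟩ : ∃ L : Fin n, eqv L = Sum.inl ⟨k % m, hj⟩ :=
      ⟨eqv.symm _, eqv.apply_symm_apply _⟩
    have hUL : U ≠ L := by
      intro h
      rw [h, hL] at hU
      exact absurd hU (by simp)
    have h1 : ord F (bp (tc k)) (dv (tc k) (sl m l)) U L := by
      rw [hord k l (by omega) hl, hU, hL]
      refine ⟨hUL, ?_⟩
      simp only [al]
      have hs := sl_le_one hl
      have hs0 := sl_pos m l
      rw [div_lt_iff₀ (by linarith)]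
      have h2 := hsmall l hl
      have h3 : ((k % m : ℕ) : ℝ) + 1 ≤ m := by exact_mod_cast hj
      have h4 : sl m l * (((k % m : ℕ) : ℝ) + 1) ≤ sl m l * m :=
        mul_le_mul_of_nonneg_left h3 hs0.le
      unfold tc
      nlinarith
    rw [heq, hord k' l' hk' hl', hU, hL] at h1
    obtain ⟨-, h1⟩ := h1
    simp only [al] at h1
    have hs := sl_le_one hl'
    have hs0 := sl_pos m l'
    rw [div_lt_iff₀ (by linarith)] at h1
    have h5 : (k:ℝ) + 1 ≤ k' := by exact_mod_cast hkk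
    have h6 : (0:ℝ) ≤ ((k % m : ℕ) : ℝ) := by positivity
    unfold tc at h1
    nlinarith
  have key2 : ∀ (k l l' : ℕ), l < l' → k ≤ m ^ 2 → l' ≤ m →
      ord F (bp (tc k)) (dv (tc k) (sl m l)) = ord F (bp (tc k)) (dv (tc k) (sl m l')) →
      False := by
    intro k l l' hll hk hl' heq
    have hlm : l < m := by omega
    obtain ⟨Z, hZ⟩ : ∃ Z : Fin n, eqv Z = Sum.inr (Sum.inr (Sum.inl ⟨l, hlm⟩)) :=
      ⟨eqv.symm _, eqv.apply_symm_apply _⟩
    obtain ⟨L, hL⟩ : ∃ L : Fin n, eqv L = Sum.inl ⟨0, by omega⟩ :=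
      ⟨eqv.symm _, eqv.apply_symm_apply _⟩
    have hLZ : L ≠ Z := by
      intro h
      rw [← h, hL] at hZ
      exact absurd hZ (by simp)
    have hE := EE_ge hm1 l
    have hc : 0 < tc k := by unfold tc; positivity
    have h1 : ord F (bp (tc k)) (dv (tc k) (sl m l)) L Z := by
      rw [hord k l hk (by omega), hL, hZ]
      refine ⟨hLZ, ?_⟩
      simp only [al]
      have e1 : sl m l - ((l : ℝ) + 1) * gg m = -(gg m / 2) := by unfold sl; ring
      rw [e1, neg_div_neg_eq, lt_div_iff₀ (by linarith)]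
      have e2 : gg m ≤ 1 := by
        have := sl_le_one (m := m) (l := 0) (by omega)
        unfold sl at this
        push_cast at this
        linarith
      push_cast
      linarith
    rw [heq, hord k l' hk hl', hL, hZ] at h1
    obtain ⟨-, h1⟩ := h1
    simp only [al] at h1
    have e3 : (l:ℝ) + 1 ≤ l' := by exact_mod_cast hll
    have e4 : 0 < sl m l' - ((l : ℝ) + 1) * gg m := by
      have : sl m l' - ((l : ℝ) + 1) * gg m = ((l' : ℝ) + 1 / 2 - (l + 1)) * gg m := by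
        unfold sl; ring
      rw [this]
      apply mul_pos _ hg
      linarith
    rw [lt_div_iff₀ e4] at h1
    push_cast at h1
    nlinarith
  obtain ⟨i0, hi0⟩ : ∃ i0 : Fin n, eqv i0 = Sum.inl ⟨0, by omega⟩ :=
    ⟨eqv.symm _, eqv.apply_symm_apply _⟩
  obtain ⟨i1, hi1⟩ : ∃ i1 : Fin n, eqv i1 = Sum.inl ⟨1, by omega⟩ :=
    ⟨eqv.symm _, eqv.apply_symm_apply _⟩
  have h01 : i0 ≠ i1 := by
    intro h
    rw [h, hi1] at hi0
    simp at hi0
  have hfin := card_le_g F hF hdis (κ := Fin (m ^ 2 + 1) × Fin (m + 1))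
    (fun z => bp (tc z.1)) (fun z => dv (tc z.1) (sl m z.2)) (fun z => dv_ne _ _)
    (fun z i => ⟨_, hmem z.1 z.2 (Nat.lt_succ_iff.mp z.1.2) (Nat.lt_succ_iff.mp z.2.2) i⟩)
    i0 i1
    (fun z => by
      rw [hord z.1 z.2 (Nat.lt_succ_iff.mp z.1.2) (Nat.lt_succ_iff.mp z.2.2), hi0, hi1]
      refine ⟨h01, ?_⟩
      simp only [al]
      norm_num)
    (fun z z' h => by
      have hz1 := Nat.lt_succ_iff.mp z.1.2
      have hz2 := Nat.lt_succ_iff.mp z.2.2
      have hz1' := Nat.lt_succ_iff.mp z'.1.2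
      have hz2' := Nat.lt_succ_iff.mp z'.2.2
      have e1 : (z.1 : ℕ) = z'.1 := by
        rcases lt_trichotomy (z.1 : ℕ) z'.1 with hlt | heq | hlt
        · exact (key1 _ _ _ _ hlt hz1' hz2 hz2' h).elim
        · exact heq
        · exact (key1 _ _ _ _ hlt hz1 hz2' hz2 h.symm).elim
      have e2 : (z.2 : ℕ) = z'.2 := by
        rw [← e1] at h
        rcases lt_trichotomy (z.2 : ℕ) z'.2 with hlt | heq | hlt
        · exact (key2 _ _ _ hlt hz1 hz2' h).elim
        · exact heq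
        · exact (key2 _ _ _ hlt hz1 hz2 h.symm).elim
      exact Prod.ext (Fin.ext e1) (Fin.ext e2))
  simpa using hfin

/-- Cubic lower bound in three-space. -/
theorem cubic (n : ℕ) (hn : 6 ≤ n) : n ^ 3 ≤ 64 * g 3 n := by
  obtain ⟨m, r, hm, hr, h⟩ : ∃ m r : ℕ, 2 ≤ m ∧ r ≤ 2 ∧ n = 3 * m + r :=
    ⟨n / 3, n % 3, by omega, by omega, by omega⟩
  have h1 := main_count hm h
  have h2 : n ≤ 4 * m := by omega
  calc n ^ 3 ≤ (4 * m) ^ 3 := Nat.pow_le_pow_left h2 3
    _ = 64 * m ^ 3 := by ring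
    _ ≤ 64 * ((m ^ 2 + 1) * (m + 1)) := by nlinarith
    _ ≤ 64 * g 3 n := by omega

/-- In dimension three the number of geometric permutations can be cubic; in particular it is
not true that `g d n` is of order `n ^ (d - 1)` for every fixed `d ≥ 3`. -/
theorem result :
    (∀ n : ℕ, 6 ≤ n → n ^ 3 ≤ 64 * g 3 n) ∧
    ¬ (∀ d : ℕ, 3 ≤ d → (fun n : ℕ => (g d n : ℝ)) =Θ[Filter.atTop]
        (fun n : ℕ => (n : ℝ) ^ (d - 1))) := by
  refine ⟨cubic, fun h => ?_⟩
  have h3 := (h 3 le_rfl).1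
  rw [Asymptotics.isBigO_iff] at h3
  obtain ⟨K, hK⟩ := h3
  rw [Filter.eventually_atTop] at hK
  obtain ⟨N, hN⟩ := hK
  obtain ⟨n, hn⟩ := exists_nat_gt (max (max (6:ℝ) N) (64 * K))
  have hn6 : (6:ℝ) < n := lt_of_le_of_lt ((le_max_left _ _).trans (le_max_left _ _)) hn
  have hnN : (N:ℝ) < n := lt_of_le_of_lt ((le_max_right _ _).trans (le_max_left _ _)) hn
  have hnK : 64 * K < n := lt_of_le_of_lt (le_max_right _ _) hn
  have hn6' : 6 ≤ n := by
    have : (6:ℕ) < n := by exact_mod_cast hn6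
    omega
  have hnN' : N ≤ n := by
    have : N < n := by exact_mod_cast hnN
    omega
  have h1 := hN n hnN'
  have h2 := cubic n hn6'
  have h2' : (n:ℝ) ^ 3 ≤ 64 * (g 3 n : ℝ) := by exact_mod_cast h2
  have h4 : (g 3 n : ℝ) ≤ K * (n:ℝ) ^ 2 := by
    rw [Real.norm_of_nonneg (by positivity), Real.norm_of_nonneg (by positivity)] at h1
    simpa using h1
  have h5 : 0 < (n:ℝ) ^ 2 := by positivity
  nlinarith

end Pool.Agent.Results.MP_25490b_co.CubicPermutations
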